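import Mathlib

open Finset Metric

namespace Pool.Agent.Results.MP_432bca_pr.Rows

/-- Generating function `G_X(s)` of a law `p` on the integers. -/
noncomputable def G (p : ℤ → ℝ) (s : ℂ) : ℂ := ∑' k : ℤ, (p k : ℂ) * s ^ k

/-- Distribution function `F_X(k) = P(X ≤ k)`. -/
noncomputable def F (p : ℤ → ℝ) (k : ℤ) : ℝ := ∑' j : ℤ, if j ≤ k then p j else 0

/-- Generating function of `X_0 + ... + X_(i-1)` for independent summands. -/
noncomputable def W (p : ℕ → ℤ → ℝ) (i : ℕ) (s : ℂ) : ℂ := ∏ l ∈ range i, G (p l) s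

/-- The column function `φ_(i,c)`. -/
noncomputable def φ (p : ℕ → ℤ → ℝ) (m : ℕ → ℤ) (i c : ℕ) (s : ℂ) : ℂ :=
  s ^ m i * W p i s * ∑ r ∈ range ((-m i).toNat - c), s ^ (r + c) * (F (p i) (m i + r) : ℂ)

/-- The last row `ν_(i,c)`. -/
noncomputable def ν (p : ℕ → ℤ → ℝ) (m : ℕ → ℤ) (i c : ℕ) : ℝ :=
  ∑ r ∈ range ((-m i).toNat - c), F (p i) (m i + r)

/-- `(α, t)` labels a root row: `α ∉ {0, 1}` and either `|α| < 1` is a zero of `G_(S_N) - 1` of
multiplicity `> t`, or `|α| = 1` is a zero and `t = 0`. -/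
def Row (p : ℕ → ℤ → ℝ) (N : ℕ) (α : ℂ) (t : ℕ) : Prop :=
  α ≠ 0 ∧ α ≠ 1 ∧ ((‖α‖ < 1 ∧ ∀ j ≤ t, iteratedDeriv j (fun s => W p N s - 1) α = 0) ∨
    (‖α‖ = 1 ∧ W p N α = 1 ∧ t = 0))

lemma step (p : ℤ → ℝ) (m : ℤ) (h0 : ∀ k, 0 ≤ p k) (h1 : HasSum p 1) (hm : ∀ k, k < m → p k = 0)
    (hs : Summable fun k : ℤ => (k : ℝ) * p k) (f : ℤ → ℂ) (g : ℂ) (θ b : ℝ) (hθ : 0 < θ)
    (hb : ∀ k : ℤ, 0 ≤ k → ‖f k‖ ≤ θ * k + b) (hz : ∀ k, m ≤ k → k < 0 → f k = 0)
    (hbm : 0 ≤ θ * m + b) (k : ℤ) (hk : 0 ≤ k)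
    (hg : HasSum (fun l => (p l : ℂ) * f (k + l)) g) :
    ‖g‖ ≤ θ * k + b + θ * ∑' l : ℤ, (l : ℝ) * p l := by
  have H : HasSum (fun l : ℤ => (θ * k + b) * p l + θ * ((l : ℝ) * p l))
      ((θ * k + b) * 1 + θ * ∑' l : ℤ, (l : ℝ) * p l) :=
    (h1.mul_left _).add (hs.hasSum.mul_left θ)
  rw [mul_one] at H
  refine hg.norm_le_of_bounded H fun l => ?_
  rw [norm_mul, Complex.norm_real, Real.norm_of_nonneg (h0 l)]
  by_cases hl : l < m
  · simp [hm l hl]
  · have hl' : m ≤ k + l := by omega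
    have : ‖f (k + l)‖ ≤ θ * ((k + l : ℤ) : ℝ) + b := by
      by_cases h : 0 ≤ k + l
      · exact hb _ h
      · rw [hz _ hl' (by omega), norm_zero]
        have : (m : ℝ) ≤ ((k + l : ℤ) : ℝ) := by exact_mod_cast hl'
        nlinarith
    push_cast at this
    have := mul_le_mul_of_nonneg_left this (h0 l)
    nlinarith

lemma kill (N : ℕ) (p : ℕ → ℤ → ℝ) (m : ℕ → ℤ) (h0 : ∀ i < N, ∀ k, 0 ≤ p i k)
    (h1 : ∀ i < N, HasSum (p i) 1) (hm : ∀ i < N, ∀ k, k < m i → p i k = 0)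
    (hs : ∀ i < N, Summable fun k : ℤ => (k : ℝ) * p i k)
    (hneg : ∑ i ∈ range N, ∑' k : ℤ, (k : ℝ) * p i k < 0)
    (h : ℕ → ℤ → ℂ) (M : ℝ) (hb : ∀ k : ℤ, 0 ≤ k → ‖h 0 k‖ ≤ M)
    (hz : ∀ i < N, ∀ k, m i ≤ k → k < 0 → h i k = 0)
    (hrec : ∀ i < N, ∀ k : ℤ, 0 ≤ k → HasSum (fun l => (p i l : ℂ) * h i (k + l)) (h (i + 1) k))
    (hper : ∀ k : ℤ, 0 ≤ k → h N k = h 0 k) (k : ℤ) (hk : 0 ≤ k) : h 0 k = 0 := by
  set μ : ℕ → ℝ := fun i => ∑' k : ℤ, (k : ℝ) * p i k with hμ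
  set S := ∑ i ∈ range N, μ i with hS
  set c0 : ℝ := ∑ i ∈ range N, (|μ i| + |(m i : ℝ)|) with hc0
  have hc : ∀ i < N, 0 ≤ (m i : ℝ) + c0 + ∑ l ∈ range i, μ l := by
    intro i hi
    have e1 : ∑ l ∈ range (i + 1), (|μ l| + |(m l : ℝ)|) ≤ c0 :=
      sum_le_sum_of_subset_of_nonneg (range_subset_range.2 (by omega)) fun _ _ _ => by positivity
    rw [sum_range_succ] at e1
    have e2 : ∑ l ∈ range i, (-μ l) ≤ ∑ l ∈ range i, (|μ l| + |(m l : ℝ)|) :=
      sum_le_sum fun l _ => by have := neg_abs_le (μ l); have := abs_nonneg (m l : ℝ); linarith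
    rw [sum_neg_distrib] at e2
    have := neg_abs_le (m i : ℝ)
    have := abs_nonneg (μ i)
    linarith
  have key : ∀ θ : ℝ, 0 < θ → ‖h 0 k‖ ≤ θ * k + θ * c0 := by
    intro θ hθ
    have one : ∀ b : ℝ, θ * c0 ≤ b → (∀ k : ℤ, 0 ≤ k → ‖h 0 k‖ ≤ θ * k + b) →
        ∀ k : ℤ, 0 ≤ k → ‖h 0 k‖ ≤ θ * k + (b + θ * S) := by
      intro b hb0 hb1
      have : ∀ i ≤ N, ∀ k : ℤ, 0 ≤ k → ‖h i k‖ ≤ θ * k + (b + θ * ∑ l ∈ range i, μ l) := by
        intro i
        induction i with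
        | zero => intro _ k hk; simpa using hb1 k hk
        | succ i ih =>
          intro hi k hk
          have hi' : i < N := by omega
          have := step (p i) (m i) (h0 i hi') (h1 i hi') (hm i hi') (hs i hi') (h i) _ θ _ hθ
            (ih hi'.le) (hz i hi') (by have := mul_nonneg hθ.le (hc i hi'); nlinarith) k hk
            (hrec i hi' k hk)
          rw [sum_range_succ]
          simp only [hμ] at this ⊢
          linarith
      intro k hk
      rw [← hper k hk]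
      exact this N le_rfl k hk
    have hθS : θ * S < 0 := mul_neg_of_pos_of_neg hθ hneg
    have two : ∀ n : ℕ, ∀ k : ℤ, 0 ≤ k → ‖h 0 k‖ ≤ θ * k + max (M + n * (θ * S)) (θ * c0) := by
      intro n
      induction n with
      | zero =>
        intro k hk
        have h2 : (0 : ℝ) ≤ θ * k := mul_nonneg hθ.le (by exact_mod_cast hk)
        have := le_max_left (M + ((0 : ℕ) : ℝ) * (θ * S)) (θ * c0)
        have := hb k hk
        simp only [Nat.cast_zero, zero_mul, add_zero] at *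
        linarith
      | succ n ih =>
        intro k hk
        refine (one _ (le_max_right _ _) ih k hk).trans ?_
        have a1 := le_max_left (M + ((n + 1 : ℕ) : ℝ) * (θ * S)) (θ * c0)
        have a2 := le_max_right (M + ((n + 1 : ℕ) : ℝ) * (θ * S)) (θ * c0)
        rcases max_cases (M + n * (θ * S)) (θ * c0) with h3 | h3
        · rw [h3.1]; push_cast at a1 ⊢; linarith
        · rw [h3.1]; linarith
    obtain ⟨n, hn⟩ := exists_nat_ge ((M - θ * c0) / (-(θ * S)))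
    rw [div_le_iff₀ (by linarith)] at hn
    have := two n k hk
    rwa [max_eq_right (by linarith)] at this
  have : ‖h 0 k‖ ≤ 0 := by
    refine le_of_forall_pos_le_add fun ε hε => ?_
    have hpos : 0 < |(k : ℝ) + c0| + 1 := by positivity
    have := key (ε / (|(k : ℝ) + c0| + 1)) (by positivity)
    rw [← mul_add] at this
    refine this.trans ?_
    rw [zero_add, div_mul_eq_mul_div, div_le_iff₀ hpos]
    have := le_abs_self ((k : ℝ) + c0)
    nlinarith
  simpa using this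

lemma itp (P : Polynomial ℂ) (t : ℕ) :
    iteratedDeriv t (fun s => P.eval s) = fun s => (Polynomial.derivative^[t] P).eval s := by
  induction t generalizing P with
  | zero => simp
  | succ t ih =>
    rw [iteratedDeriv_succ', Function.iterate_succ_apply, ← ih]
    congr 1
    ext s
    exact Polynomial.deriv P

open Polynomial in
lemma sep (R : Finset (ℂ × ℕ)) (lam : ℂ × ℕ → ℂ)
    (h : ∀ k : ℕ, ∑ x ∈ R, lam x * iteratedDeriv x.2 (fun s : ℂ => s ^ k) x.1 = 0) :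
    ∀ x ∈ R, lam x = 0 := by
  classical
  have hP : ∀ P : Polynomial ℂ, ∑ x ∈ R, lam x * (derivative^[x.2] P).eval x.1 = 0 := by
    intro P
    induction P using Polynomial.induction_on' with
    | add p q hp hq =>
      simp only [iterate_map_add, eval_add, mul_add, Finset.sum_add_distrib, hp, hq, add_zero]
    | monomial n a =>
      have e : ∀ x : ℂ × ℕ, (derivative^[x.2] (monomial n a)).eval x.1 =
          a * iteratedDeriv x.2 (fun s : ℂ => s ^ n) x.1 := by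
        intro x
        have := congrFun (itp (monomial n a) x.2) x.1
        rw [← this, ← iteratedDeriv_const_mul_field]
        simp
      simp only [e]
      have := congrArg (a * ·) (h n)
      simp only [Finset.mul_sum, mul_zero] at this
      rw [← this]
      exact Finset.sum_congr rfl fun x _ => by ring
  by_contra hne
  push Not at hne
  obtain ⟨x0, hx0, hmax⟩ := (R.filter fun x => lam x ≠ 0).exists_max_image Prod.snd
    (by obtain ⟨x, hx, hl⟩ := hne; exact ⟨x, Finset.mem_filter.2 ⟨hx, hl⟩⟩)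
  obtain ⟨hx0R, hl0⟩ := Finset.mem_filter.1 hx0
  set Q : Polynomial ℂ := ∏ β ∈ (R.image Prod.fst).erase x0.1, (X - C β) ^ (x0.2 + 1) with hQ
  have hQe : Q.eval x0.1 ≠ 0 := by
    rw [hQ, eval_prod]
    refine Finset.prod_ne_zero_iff.2 fun β hβ => ?_
    simp only [eval_pow, eval_sub, eval_X, eval_C]
    exact pow_ne_zero _ (sub_ne_zero.2 (Finset.ne_of_mem_erase hβ).symm)
  have hQ0 : Q ≠ 0 := fun e => hQe (by simp [e])
  set P : Polynomial ℂ := (X - C x0.1) ^ x0.2 * Q with hPd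
  have hP0 : P ≠ 0 := mul_ne_zero (pow_ne_zero _ (X_sub_C_ne_zero _)) hQ0
  have hr : P.rootMultiplicity x0.1 = x0.2 := by
    rw [hPd, rootMultiplicity_mul hP0, rootMultiplicity_X_sub_C_pow, rootMultiplicity_eq_zero hQe,
      add_zero]
  have h2 := hP P
  rw [Finset.sum_eq_single x0] at h2
  · have h3 := (mul_eq_zero.1 h2).resolve_left hl0
    have : x0.2 < P.rootMultiplicity x0.1 := by
      refine (lt_rootMultiplicity_iff_isRoot_iterate_derivative hP0).2 fun j hj => ?_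
      rcases hj.lt_or_eq with hj | hj
      · exact isRoot_iterate_derivative_of_lt_rootMultiplicity (by rw [hr]; exact hj)
      · rw [hj]; exact h3
    omega
  · intro y hy hyx
    by_cases hly : lam y = 0
    · simp [hly]
    have hle := hmax y (Finset.mem_filter.2 ⟨hy, hly⟩)
    have : y.2 < P.rootMultiplicity y.1 := by
      by_cases e : y.1 = x0.1
      · rw [e, hr]
        refine lt_of_le_of_ne hle fun e2 => hyx (Prod.ext e e2)
      · have : (X - C y.1) ^ (x0.2 + 1) ∣ P :=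
          Dvd.dvd.mul_left (Finset.dvd_prod_of_mem (fun β => (X - C β) ^ (x0.2 + 1))
            (Finset.mem_erase.2 ⟨e, Finset.mem_image_of_mem _ hy⟩)) _
        have := (le_rootMultiplicity_iff hP0).2 this
        omega
    have := isRoot_iterate_derivative_of_lt_rootMultiplicity this
    rw [IsRoot.def] at this
    rw [this, mul_zero]
  · intro e; exact absurd hx0R e

lemma exch {ι : Type} {U : Set ℂ} (hU : IsOpen U) (f : ι → ℂ → ℂ) (u : ι → ℝ) (hu : Summable u)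
    (hf : ∀ i, DifferentiableOn ℂ (f i) U) (hb : ∀ i w, w ∈ U → ‖f i w‖ ≤ u i) (t : ℕ) {α : ℂ}
    (hα : α ∈ U) :
    HasSum (fun i => iteratedDeriv t (f i) α) (iteratedDeriv t (fun s => ∑' i, f i s) α) := by
  have hc := (tendstoUniformlyOn_tsum hu hb).tendstoLocallyUniformlyOn
  have key : ∀ t : ℕ, (∀ T : Finset ι, DifferentiableOn ℂ
      (iteratedDeriv t fun s => ∑ i ∈ T, f i s) U) ∧
      TendstoLocallyUniformlyOn (fun T : Finset ι => iteratedDeriv t fun s => ∑ i ∈ T, f i s)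
        (iteratedDeriv t fun s => ∑' i, f i s) Filter.atTop U := by
    intro t
    induction t with
    | zero =>
      simp only [iteratedDeriv_zero]
      exact ⟨fun T => DifferentiableOn.fun_sum fun i _ => hf i, hc⟩
    | succ t ih =>
      simp only [iteratedDeriv_succ]
      exact ⟨fun T => (ih.1 T).deriv hU, ih.2.deriv (Filter.Eventually.of_forall ih.1) hU⟩
  have h2 := (key t).2.tendsto_at hα
  refine h2.congr fun T => ?_
  exact iteratedDeriv_fun_sum fun i _ =>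
    ((hf i).contDiffOn hU).contDiffAt (hU.mem_nhds hα)

lemma zb {ρ : ℝ} (hρ : 0 < ρ) {s : ℂ} (h1 : ρ ≤ ‖s‖) (h2 : ‖s‖ ≤ 1) {m l : ℤ} (hm : m ≤ 0)
    (hl : m ≤ l) : ‖s ^ l‖ ≤ ρ ^ m := by
  rw [norm_zpow]
  have hs : 0 < ‖s‖ := hρ.trans_le h1
  refine (zpow_le_zpow_right_of_le_one₀ hs h2 hl).trans ?_
  obtain ⟨n, rfl⟩ : ∃ n : ℕ, m = -(n : ℤ) := ⟨(-m).toNat, by omega⟩
  rw [zpow_neg, zpow_neg, zpow_natCast, zpow_natCast]
  exact inv_anti₀ (pow_pos hρ n) (pow_le_pow_left₀ hρ.le h1 n)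

structure Good (p : ℤ → ℝ) (m : ℤ) : Prop where
  h0 : ∀ k, 0 ≤ p k
  h1 : HasSum p 1
  hm : ∀ k, k < m → p k = 0
  hm0 : m ≤ 0

lemma tb {p : ℤ → ℝ} {m : ℤ} (hp : Good p m) {ρ : ℝ} (hρ : 0 < ρ) {s : ℂ} (h1 : ρ ≤ ‖s‖)
    (h2 : ‖s‖ ≤ 1) {k : ℤ} (hk : 0 ≤ k) (l : ℤ) : ‖(p l : ℂ) * s ^ (k + l)‖ ≤ p l * ρ ^ m := by
  by_cases hl : l < m
  · simp [hp.hm l hl]
  · rw [norm_mul, Complex.norm_real, Real.norm_of_nonneg (hp.h0 l)]
    exact mul_le_mul_of_nonneg_left (zb hρ h1 h2 hp.hm0 (by omega)) (hp.h0 l)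

lemma Gb {p : ℤ → ℝ} {m : ℤ} (hp : Good p m) {ρ : ℝ} (hρ : 0 < ρ) {s : ℂ} (h1 : ρ ≤ ‖s‖)
    (h2 : ‖s‖ ≤ 1) : ‖G p s‖ ≤ ρ ^ m := by
  have := tsum_of_norm_bounded (hp.h1.mul_right (ρ ^ m))
    (fun l => by simpa using tb hp hρ h1 h2 le_rfl l : ∀ l : ℤ, ‖(p l : ℂ) * s ^ l‖ ≤ p l * ρ ^ m)
  simpa [G] using this

def An (ρ : ℝ) : Set ℂ := {s | ρ < ‖s‖ ∧ ‖s‖ < 1}

lemma An_open (ρ : ℝ) : IsOpen (An ρ) :=
  (isOpen_lt continuous_const continuous_norm).inter (isOpen_lt continuous_norm continuous_const)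

lemma zd {ρ : ℝ} (hρ : 0 < ρ) (k : ℤ) : DifferentiableOn ℂ (fun s : ℂ => s ^ k) (An ρ) :=
  fun s hs => (differentiableAt_zpow.2 (Or.inl (norm_pos_iff.1 (hρ.trans hs.1)))).differentiableWithinAt

lemma Gd {p : ℤ → ℝ} {m : ℤ} (hp : Good p m) {ρ : ℝ} (hρ : 0 < ρ) :
    DifferentiableOn ℂ (G p) (An ρ) :=
  Complex.differentiableOn_tsum_of_summable_norm (hp.h1.mul_right (ρ ^ m)).summable
    (fun l => (zd hρ l).const_mul _) (An_open ρ)
    fun l w hw => by simpa using tb hp hρ hw.1.le hw.2.le le_rfl l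

lemma Wd {p : ℕ → ℤ → ℝ} {m : ℕ → ℤ} {N : ℕ} (hp : ∀ i < N, Good (p i) (m i)) {ρ : ℝ}
    (hρ : 0 < ρ) {i : ℕ} (hi : i ≤ N) : DifferentiableOn ℂ (W p i) (An ρ) :=
  DifferentiableOn.fun_finset_prod fun l hl => Gd (hp l (by have := mem_range.1 hl; omega)) hρ

lemma Wb {p : ℕ → ℤ → ℝ} {m : ℕ → ℤ} {N : ℕ} (hp : ∀ i < N, Good (p i) (m i)) {ρ : ℝ}
    (hρ : 0 < ρ) {i : ℕ} (hi : i ≤ N) {s : ℂ} (h1 : ρ ≤ ‖s‖) (h2 : ‖s‖ ≤ 1) :
    ‖W p i s‖ ≤ ∏ l ∈ range i, ρ ^ m l := by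
  rw [W, norm_prod]
  exact prod_le_prod (fun _ _ => norm_nonneg _) fun l hl =>
    Gb (hp l (by have := mem_range.1 hl; omega)) hρ h1 h2

lemma ts (p : ℕ → ℤ → ℝ) (i : ℕ) (k : ℤ) {s : ℂ} (hs : s ≠ 0) :
    ∑' l : ℤ, (p i l : ℂ) * (s ^ (k + l) * W p i s) = s ^ k * W p (i + 1) s := by
  rw [W, W, prod_range_succ, G, ← mul_assoc, ← tsum_mul_left]
  exact tsum_congr fun l => by rw [zpow_add₀ hs]; ring

lemma pe (p : ℕ → ℤ → ℝ) (m : ℕ → ℤ) (i c : ℕ) {s : ℂ} (hs : s ≠ 0) :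
    φ p m i c s = ∑ r ∈ range ((-m i).toNat - c),
      (F (p i) (m i + r) : ℂ) * (s ^ (m i + r + c) * W p i s) := by
  rw [φ, mul_sum]
  refine sum_congr rfl fun r _ => ?_
  rw [add_assoc, zpow_add₀ hs, ← Nat.cast_add, zpow_natCast]; ring

/-- rows including the root `1` -/
def Row' (p : ℕ → ℤ → ℝ) (N : ℕ) (α : ℂ) (t : ℕ) : Prop :=
  α ≠ 0 ∧ ((‖α‖ < 1 ∧ ∀ j ≤ t, iteratedDeriv j (fun s => W p N s - 1) α = 0) ∨
    (‖α‖ = 1 ∧ W p N α = 1 ∧ t = 0))

noncomputable def e (p : ℕ → ℤ → ℝ) (α : ℂ) (t i : ℕ) (k : ℤ) : ℂ :=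
  iteratedDeriv t (fun s => s ^ k * W p i s) α

lemma props {p : ℕ → ℤ → ℝ} {m : ℕ → ℤ} {N : ℕ} (hp : ∀ i < N, Good (p i) (m i)) {α : ℂ} {t : ℕ}
    (hr : Row' p N α t) :
    (∃ C : ℝ, ∀ k : ℤ, 0 ≤ k → ‖e p α t 0 k‖ ≤ C) ∧
    (∀ i < N, ∀ k : ℤ, 0 ≤ k → HasSum (fun l => (p i l : ℂ) * e p α t i (k + l)) (e p α t (i + 1) k)) ∧
    (∀ k : ℤ, e p α t N k = e p α t 0 k) ∧
    (∀ i < N, ∀ c, iteratedDeriv t (φ p m i c) α = ∑ r ∈ range ((-m i).toNat - c),
      (F (p i) (m i + r) : ℂ) * e p α t i (m i + r + c)) := by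
  obtain ⟨h0, ⟨h1, hz⟩ | ⟨h1, hW, rfl⟩⟩ := hr
  · have hα : 0 < ‖α‖ := norm_pos_iff.2 h0
    have hρ : 0 < ‖α‖ / 2 := by linarith
    have hU : α ∈ An (‖α‖ / 2) := ⟨by linarith, h1⟩
    have hn := (An_open _).mem_nhds hU
    have hne : ∀ᶠ s in nhds α, s ≠ 0 := eventually_ne_nhds h0
    have cd : ∀ {f : ℂ → ℂ}, DifferentiableOn ℂ f (An (‖α‖ / 2)) → ContDiffAt ℂ t f α :=
      fun hf => (hf.contDiffOn (An_open _)).contDiffAt hn
    refine ⟨⟨t.factorial * 1 / (1 - ‖α‖) ^ t, fun k hk => ?_⟩, fun i hi k hk => ?_, fun k => ?_,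
      fun i hi c => ?_⟩
    · obtain ⟨n, rfl⟩ := Int.eq_ofNat_of_zero_le hk
      simp only [e, W, range_zero, prod_empty, mul_one, zpow_natCast]
      rw [← mul_one (t.factorial : ℝ)]
      refine Complex.norm_iteratedDeriv_le_of_forall_mem_sphere_norm_le t (by linarith)
        (differentiable_pow n).diffContOnCl fun z hz => ?_
      rw [norm_pow]
      refine pow_le_one₀ (norm_nonneg _) ?_
      have := norm_le_norm_add_norm_sub' z α
      rw [mem_sphere_iff_norm.1 hz] at this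
      linarith
    · have := exch (An_open (‖α‖ / 2)) (fun (l : ℤ) s => (p i l : ℂ) * (s ^ (k + l) * W p i s))
        (fun l => p i l * (‖α‖ / 2) ^ m i * ∏ l ∈ range i, (‖α‖ / 2) ^ m l)
        (((hp i hi).h1.mul_right _).mul_right _).summable
        (fun l => ((zd hρ _).mul (Wd hp hρ hi.le)).const_mul _)
        (fun l w hw => by
          rw [← mul_assoc, norm_mul]
          exact mul_le_mul (tb (hp i hi) hρ hw.1.le hw.2.le hk l) (Wb hp hρ hi.le hw.1.le hw.2.le)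
            (norm_nonneg _) (mul_nonneg ((hp i hi).h0 l) (zpow_nonneg hρ.le _))) t hU
      simp only [iteratedDeriv_const_mul_field] at this
      have e2 : (fun s => ∑' l : ℤ, (p i l : ℂ) * (s ^ (k + l) * W p i s)) =ᶠ[nhds α]
          fun s => s ^ k * W p (i + 1) s := hne.mono fun s hs => ts p i k hs
      rw [e2.iteratedDeriv_eq] at this
      exact this
    · have e1 : (fun s : ℂ => s ^ k * W p N s) =
          fun s => s ^ k * (W p N s - 1) + s ^ k * W p 0 s := by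
        ext s; simp [W]; ring
      have a1 := cd (zd hρ k)
      have a2 := cd ((Wd hp hρ le_rfl).sub_const 1)
      have a3 := cd (Wd hp hρ (Nat.zero_le N))
      rw [e, e1, iteratedDeriv_fun_add (a1.mul a2) (a1.mul a3), iteratedDeriv_fun_mul a1 a2,
        sum_eq_zero fun j _ => by rw [hz _ (Nat.sub_le _ _), mul_zero], zero_add, e]
    · have e2 : φ p m i c =ᶠ[nhds α] fun s => ∑ r ∈ range ((-m i).toNat - c),
          (F (p i) (m i + r) : ℂ) * (s ^ (m i + r + c) * W p i s) :=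
        hne.mono fun s hs => pe p m i c hs
      rw [e2.iteratedDeriv_eq, iteratedDeriv_fun_sum fun r _ =>
        cd (((zd hρ _).fun_mul (Wd hp hρ hi.le)).const_mul _)]
      simp only [iteratedDeriv_const_mul_field, e]
  · simp only [e, iteratedDeriv_zero]
    refine ⟨⟨1, fun k _ => by simp [W, norm_zpow, h1]⟩, fun i hi k hk => ?_,
      fun k => by rw [hW]; simp [W], fun i _ c => pe p m i c h0⟩
    rw [← ts p i k h0]
    refine Summable.hasSum (Summable.of_norm_bounded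
      ((hp i hi).h1.mul_right ‖W p i α‖).summable fun l => ?_)
    simp [norm_zpow, h1, abs_of_nonneg ((hp i hi).h0 l)]

lemma tri (a : ℕ → ℂ) (ha : a 0 ≠ 0) (h : ℤ → ℂ) (m : ℤ)
    (H : ∀ c < (-m).toNat, ∑ r ∈ range ((-m).toNat - c), a r * h (m + r + c) = 0) :
    ∀ k, m ≤ k → k < 0 → h k = 0 := by
  have key : ∀ d : ℕ, ∀ c < (-m).toNat, (-m).toNat - c ≤ d → h (m + c) = 0 := by
    intro d
    induction d with
    | zero => intro c hc hd; omega
    | succ d ih =>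
      intro c hc hd
      have h1 := H c hc
      rw [sum_eq_single 0] at h1
      · simpa [ha] using h1
      · intro r hr hr0
        have := ih (r + c) (by have := mem_range.1 hr; omega) (by have := mem_range.1 hr; omega)
        rw [add_assoc, ← Nat.cast_add, this, mul_zero]
      · intro h2; exact absurd (mem_range.2 (by omega)) h2
  intro k hk1 hk2
  have := key _ (k - m).toNat (by omega) le_rfl
  rwa [show m + ((k - m).toNat : ℤ) = k by omega] at this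

theorem result (N : ℕ) (p : ℕ → ℤ → ℝ) (m : ℕ → ℤ) (h0 : ∀ i < N, ∀ k, 0 ≤ p i k)
    (h1 : ∀ i < N, HasSum (p i) 1) (hm : ∀ i < N, ∀ k < m i, p i k = 0)
    (hm1 : ∀ i < N, 0 < p i (m i)) (hm0 : ∀ i < N, m i ≤ 0)
    (hs : ∀ i < N, Summable fun k : ℤ => (k : ℝ) * p i k)
    (hneg : ∑ i ∈ range N, ∑' k : ℤ, (k : ℝ) * p i k < 0)
    (R : Finset (ℂ × ℕ)) (hR : ∀ x ∈ R, Row p N x.1 x.2) (lam : ℂ × ℕ → ℂ) (lam0 : ℂ)
    (h : ∀ i < N, ∀ c < (-m i).toNat,
      ∑ x ∈ R, lam x * iteratedDeriv x.2 (φ p m i c) x.1 + lam0 * (ν p m i c : ℂ) = 0) :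
    (∀ x ∈ R, lam x = 0) ∧ lam0 = 0 := by
  classical
  have hp : ∀ i < N, Good (p i) (m i) := fun i hi => ⟨h0 i hi, h1 i hi, hm i hi, hm0 i hi⟩
  have hW1 : ∀ i ≤ N, W p i 1 = 1 := fun i hi => prod_eq_one fun l hl => by
    have := (h1 l (by have := mem_range.1 hl; omega)).tsum_eq
    simp only [G, one_zpow, mul_one]
    rw [← Complex.ofReal_tsum, this, Complex.ofReal_one]
  have hnot : ((1 : ℂ), 0) ∉ R := fun hx => (hR _ hx).2.1 rfl
  set R' := insert ((1 : ℂ), 0) R with hR'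
  set lam' : ℂ × ℕ → ℂ := fun x => if x = ((1 : ℂ), 0) then lam0 else lam x with hl'
  have hl1 : ∀ x ∈ R, lam' x = lam x := fun x hx =>
    if_neg fun (e2 : x = ((1 : ℂ), 0)) => hnot (by rw [← e2]; exact hx)
  have hrow : ∀ x ∈ R', Row' p N x.1 x.2 := by
    intro x hx
    rcases mem_insert.1 hx with rfl | hx
    · exact ⟨one_ne_zero, Or.inr ⟨norm_one, hW1 N le_rfl, rfl⟩⟩
    · exact ⟨(hR x hx).1, (hR x hx).2.2⟩
  have hcol : ∀ i < N, ∀ c < (-m i).toNat,
      ∑ x ∈ R', lam' x * iteratedDeriv x.2 (φ p m i c) x.1 = 0 := by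
    intro i hi c hc
    rw [hR', sum_insert hnot, ← h i hi c hc, add_comm]
    congr 1
    · exact sum_congr rfl fun x hx => by rw [hl1 x hx]
    · simp [hl', φ, ν, hW1 i hi.le]
  choose! C hC using fun x hx => (props hp (hrow x hx)).1
  have hk := kill N p m h0 h1 hm hs hneg (fun i k => ∑ x ∈ R', lam' x * e p x.1 x.2 i k)
    (∑ x ∈ R', ‖lam' x‖ * C x)
    (fun k hk => (norm_sum_le _ _).trans (sum_le_sum fun x hx => by
      rw [norm_mul]; exact mul_le_mul_of_nonneg_left (hC x hx k hk) (norm_nonneg _)))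
    (fun i hi => tri (fun r => (F (p i) (m i + r) : ℂ)) (by
        have : F (p i) (m i) = p i (m i) := by
          rw [F, tsum_eq_single (m i)]
          · simp
          · intro j hj
            split_ifs with h2
            · exact hm i hi j (lt_of_le_of_ne h2 hj)
            · rfl
        simp [this, (hm1 i hi).ne']) _ (m i) fun c hc => by
      rw [← hcol i hi c hc]
      simp only [mul_sum]
      rw [sum_comm]
      refine sum_congr rfl fun x hx => ?_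
      rw [(props hp (hrow x hx)).2.2.2 i hi c, mul_sum]
      exact sum_congr rfl fun r _ => by ring)
    (fun i hi k hk => by
      have := hasSum_sum fun x hx =>
        ((props hp (hrow x hx)).2.1 i hi k hk).mul_left (lam' x)
      have e2 : (fun l : ℤ => (p i l : ℂ) * ∑ x ∈ R', lam' x * e p x.1 x.2 i (k + l)) =
          fun l : ℤ => ∑ x ∈ R', lam' x * ((p i l : ℂ) * e p x.1 x.2 i (k + l)) := by
        ext l
        rw [mul_sum]
        exact sum_congr rfl fun x _ => by ring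
      rw [e2]
      exact this)
    (fun k _ => sum_congr rfl fun x hx => by rw [(props hp (hrow x hx)).2.2.1 k])
  have hz := sep R' lam' fun k => by
    have := hk k (Int.natCast_nonneg k)
    simpa [e, W] using this
  exact ⟨fun x hx => by rw [← hl1 x hx]; exact hz x (mem_insert_of_mem hx),
    by simpa [hl'] using hz _ (mem_insert_self _ _)⟩

end Pool.Agent.Results.MP_432bca_pr.Rows
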